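import Pool.Agent.H83.G.Targets2

/-!
Row PKT of the board G (MP_ee74d2_an): sums of wave packets of a cap are band limited.
-/

set_option autoImplicit false

namespace Pool.Agent.H51.G.PKT

open Pool.Agent.H83.G
open MeasureTheory Set
open scoped ENNReal NNReal RealInnerProductSpace

variable {m : ℕ}

private theorem continuous_e_ph (z : Z m) : Continuous (fun ζ : Z m => e (ph z ζ)) := by
  unfold e ph
  fun_prop

private theorem TC_int {G : Z m → ℂ} (hG : TC G) (z : Z m) :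
    Integrable (fun ζ => e (ph z ζ) * G ζ) := by
  refine ((continuous_e_ph z).mul hG.1.continuous).integrable_of_hasCompactSupport ?_
  exact hG.2.mul_left

private theorem TC_zero : TC (fun _ : Z m => (0 : ℂ)) :=
  ⟨contDiff_const, HasCompactSupport.zero⟩

private theorem TF_zero (z : Z m) : TF (fun _ : Z m => (0 : ℂ)) z = 0 := by
  simp [TF]

private theorem TC_sum {ι : Type*} (T : Finset ι) (F : ι → Z m → ℂ) (hF : ∀ W, TC (F W)) :
    TC (fun ζ => ∑ W ∈ T, F W ζ) := by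
  classical
  induction T using Finset.induction_on with
  | empty =>
    simp only [Finset.sum_empty]
    exact TC_zero
  | insert a T ha ih =>
    simp only [Finset.sum_insert ha]
    exact ⟨(hF a).1.add ih.1, (hF a).2.add ih.2⟩

private theorem TF_sum {ι : Type*} (T : Finset ι) (F : ι → Z m → ℂ) (hF : ∀ W, TC (F W))
    (z : Z m) : TF (fun ζ => ∑ W ∈ T, F W ζ) z = ∑ W ∈ T, TF (F W) z := by
  unfold TF
  simp only [Finset.mul_sum]
  exact integral_finsetSum _ fun W _ => TC_int (hF W) z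

private theorem Rg_mono {κ κ' c : ℝ} (hκ : κ ≤ κ') (hc : 0 ≤ c) {ζ : Z m} (h0 : 0 ≤ ζ.1)
    (h : ζ ∈ Rg m κ c) : ζ ∈ Rg m κ' c := by
  obtain ⟨h1, h2, h3, h4⟩ := h
  refine ⟨by linarith, by linarith, ?_, ?_⟩
  · exact h3.trans (mul_le_mul_of_nonneg_right (by linarith) h0)
  · exact h4.trans (mul_le_mul_of_nonneg_right (by linarith) hc)

private theorem psi_sum_le {ψ : Z m → ℝ} (h0 : ∀ z, 0 ≤ ψ z)
    (h1 : ∀ z, HasSum (fun l : Zi m => ψ (z - zc l)) 1) (S : Finset (Pk m)) (k : Fin m → ℤ)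
    (y : Z m) : ∑ W ∈ S.filter (fun W => W.1 = k), ψ (y - zc W.2) ≤ 1 := by
  classical
  have hinj : Set.InjOn (fun W : Pk m => W.2) (S.filter (fun W => W.1 = k) : Set (Pk m)) := by
    intro W hW W' hW' h
    have h1 := (Finset.mem_filter.1 (Finset.mem_coe.1 hW)).2
    have h2 := (Finset.mem_filter.1 (Finset.mem_coe.1 hW')).2
    exact Prod.ext (h1.trans h2.symm) h
  have h2 : ∑ W ∈ S.filter (fun W => W.1 = k), ψ (y - zc W.2) =
      ∑ l ∈ (S.filter (fun W => W.1 = k)).image (fun W => W.2), ψ (y - zc l) :=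
    (Finset.sum_image (f := fun l => ψ (y - zc l)) hinj).symm
  rw [h2]
  exact sum_le_hasSum _ (fun l _ => h0 _) (h1 y)

theorem pf_PKT (hMOD : T_MOD) (hDRF : T_DRF) (hLOA : T_LOA) (hCPS : T_CPS) (hSCH : T_SCH) :
    T_PKT := by
  intro m β Ψ Ξ ψ χ hβ hΨ hΞ
  obtain ⟨C₁, hC₁, hD⟩ := hDRF m
  obtain ⟨C₂, hC₂, hχ⟩ := (hSCH m Ξ hΞ.1).2 0
  refine ⟨max C₁ C₂, le_max_of_le_left hC₁, ?_⟩
  intro κ R r δ G S z₁ hκ hκ' hδ hδ' hR1 hCR hG hGR
  have hC₁R : C₁ ≤ R ^ δ := (le_max_left _ _).trans hCR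
  have hR : 0 < R := one_pos.trans_le hR1
  have hsR : 0 < sR R := inv_pos.2 (Real.sqrt_pos.2 hR)
  have hRδ : 0 < R ^ (-δ) := Real.rpow_pos_of_pos hR _
  have hsqR : Real.sqrt R ≤ R := by
    rw [Real.sqrt_le_left hR.le]
    nlinarith
  -- the pieces
  have hTCk : ∀ k : Fin m → ℤ, TC (fun ζ => cp β (ctr (sR R) k) (sR R) ζ * G ζ) := by
    intro k
    refine hCPS m β _ _ G hβ.1 hsR hG fun ζ h => ?_
    have := (hGR ζ h).1
    linarith
  have hsup : ∀ (k : Fin m → ℤ) (ζ : Z m), cp β (ctr (sR R) k) (sR R) ζ * G ζ ≠ 0 →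
      ζ ∈ Rg m κ R⁻¹ ∧ ‖ζ.1⁻¹ • ζ.2.1 - ctr (sR R) k‖ ≤ sR R := by
    intro k ζ h
    refine ⟨hGR ζ (right_ne_zero_of_mul h), ?_⟩
    have h1 := left_ne_zero_of_mul h
    by_contra h2
    refine h1 (hβ.2.1 _ ?_)
    rw [norm_smul, norm_inv, Real.norm_eq_abs, abs_of_pos hsR]
    rw [← div_eq_inv_mul, one_le_div hsR]
    exact (not_le.1 h2).le
  -- the functions `G'_W`
  have hM := fun W : Pk m => hMOD m _ Ψ (ctr (sR R) W.1) (sR R) (R ^ (-δ)) (zc W.2) (hTCk W.1)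
    hΨ.1 hsR hRδ
  choose F hFTC hFTF hFs using hM
  have hFTF' : ∀ W z, TF (F W) z = Fp β ψ R δ G W z := by
    intro W z
    rw [hFTF W z, ← hΨ.2.2.1]
    rfl
  have hbound : ∀ (k : Fin m → ℤ) (z : Z m),
      ‖∑ W ∈ S.filter (fun W => W.1 = k), Fp β ψ R δ G W z‖ ≤
        ‖TP β (ctr (sR R) k) (sR R) G z‖ := by
    intro k z
    have h1 : ∑ W ∈ S.filter (fun W => W.1 = k), Fp β ψ R δ G W z =
        TP β (ctr (sR R) k) (sR R) G z *
          ((∑ W ∈ S.filter (fun W => W.1 = k), ψ (fc R δ k z - zc W.2) : ℝ) : ℂ) := by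
      rw [Complex.ofReal_sum, Finset.mul_sum]
      refine Finset.sum_congr rfl fun W hW => ?_
      rw [← (Finset.mem_filter.1 hW).2]
      rfl
    rw [h1, norm_mul, Complex.norm_real, Real.norm_eq_abs,
      abs_of_nonneg (Finset.sum_nonneg fun W _ => hΨ.2.2.2.1 _)]
    exact mul_le_of_le_one_right (norm_nonneg _) (psi_sum_le hΨ.2.2.2.1 hΨ.2.2.2.2 S k _)
  have hmax1 : 1 ≤ max C₁ C₂ := le_max_of_le_left hC₁
  have hκle : κ + C₁ * R ^ (-δ) ≤ κ + max C₁ C₂ * R ^ (-δ) :=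
    add_le_add_right (mul_le_mul_of_nonneg_right (le_max_left _ _) hRδ.le) _
  constructor
  · refine ⟨fun k ζ => ∑ W ∈ S.filter (fun W => W.1 = k), F W ζ, fun k => TC_sum _ F hFTC, ?_,
      ?_, ?_⟩
    · intro k ζ h
      obtain ⟨W, hW, hWζ⟩ := Finset.exists_ne_zero_of_sum_ne_zero h
      obtain ⟨ζ₁, ζ₂, h1, h2, h3⟩ := hFs W ζ hWζ
      have hk := (Finset.mem_filter.1 hW).2
      obtain ⟨hs1, hs2⟩ := hsup W.1 ζ₁ h1
      obtain ⟨r1, r2, r3, r4⟩ := hD κ R R δ W.1 ζ₁ ζ₂ 0 hκ hκ' hδ hδ' hR1 hC₁R hsqR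
        (Or.inr ⟨rfl, rfl⟩) hs1 hs2 (hΨ.2.1 ζ₂ h2) (by rw [norm_zero]; norm_num) ζ
        (by rw [smul_zero, add_zero]; exact h3)
      refine ⟨Rg_mono hκle (inv_nonneg.2 hR.le) (by linarith) r1, ?_⟩
      rw [← hk]
      exact r2
    · intro k z
      rw [TF_sum _ F hFTC]
      exact Finset.sum_congr rfl fun W _ => hFTF' W z
    · intro k z
      rw [TF_sum _ F hFTC, Finset.sum_congr rfl fun W _ => hFTF' W z]
      exact (hbound k z).trans (le_mul_of_one_le_left (norm_nonneg _) hmax1)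
  · intro hr1 hr2
    have hr0 : 0 < r := (Real.sqrt_pos.2 hR).trans_le hr1
    have hr2' : r ≤ R / C₁ := hr2.trans
      (div_le_div_of_nonneg_left hR.le (by linarith) (le_max_left _ _))
    have hL := (hLOA m).2.2.2.2.1
    have hM2 := fun W : Pk m => hMOD m (F W) Ξ (0 : E m) 1 r⁻¹ (r⁻¹ • z₁) (hFTC W)
      hΞ.1 one_pos (inv_pos.2 hr0)
    choose F₂ hF₂TC hF₂TF hF₂s using hM2
    have hF₂TF' : ∀ W z, TF (F₂ W) z = (χ (r⁻¹ • (z - z₁)) : ℂ) * Fp β ψ R δ G W z := by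
      intro W z
      rw [hF₂TF W z, (hL z).1, ← smul_sub, ← hΞ.2.2.1, hFTF' W z, mul_comm]
    refine ⟨fun k ζ => ∑ W ∈ S.filter (fun W => W.1 = k), F₂ W ζ, fun k => TC_sum _ F₂ hF₂TC, ?_,
      ?_, ?_⟩
    · intro k ζ h
      obtain ⟨W, hW, hWζ⟩ := Finset.exists_ne_zero_of_sum_ne_zero h
      obtain ⟨ζ', ζ₃, h1', h2', h3'⟩ := hF₂s W ζ hWζ
      obtain ⟨ζ₁, ζ₂, h1, h2, h3⟩ := hFs W ζ' h1'
      have hk := (Finset.mem_filter.1 hW).2
      obtain ⟨hs1, hs2⟩ := hsup W.1 ζ₁ h1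
      obtain ⟨r1, r2, r3, r4⟩ := hD κ R r δ W.1 ζ₁ ζ₂ ζ₃ hκ hκ' hδ hδ' hR1 hC₁R hr1
        (Or.inl hr2') hs1 hs2 (hΨ.2.1 ζ₂ h2) (hΞ.2.1 ζ₃ h2') ζ
        (by rw [h3', h3, (hL ζ₃).2])
      refine ⟨Rg_mono hκle (inv_nonneg.2 hr0.le) (by linarith) r1, ?_⟩
      rw [← hk]
      exact r2
    · intro k z
      rw [TF_sum _ F₂ hF₂TC, Finset.mul_sum]
      exact Finset.sum_congr rfl fun W _ => hF₂TF' W z
    · intro k z
      rw [TF_sum _ F₂ hF₂TC, Finset.sum_congr rfl fun W _ => hF₂TF' W z, ← Finset.mul_sum,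
        norm_mul]
      have h1 : ‖(χ (r⁻¹ • (z - z₁)) : ℂ)‖ ≤ max C₁ C₂ := by
        rw [hΞ.2.2.1]
        refine (hχ _).trans ?_
        simp only [wt, pow_zero, inv_one, mul_one]
        exact le_max_right _ _
      exact mul_le_mul h1 (hbound k z) (norm_nonneg _) (by linarith)

end Pool.Agent.H51.G.PKT
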