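import Pool.Agent.H83.G.Targets1

/-!
Row PLN of the board G (MP_ee74d2_an): Plancherel for `TF`.
-/

set_option autoImplicit false

namespace Pool.Agent.H51.G.PLN

open Pool.Agent.H83.G
open MeasureTheory Set
open scoped ENNReal NNReal RealInnerProductSpace FourierTransform SchwartzMap

private theorem enorm_sq_eq (c : ℂ) : ‖c‖ₑ ^ 2 = ENNReal.ofReal (‖c‖ ^ 2) := by
  rw [ENNReal.ofReal_pow (norm_nonneg c), ofReal_norm]

private theorem lintegral_sq_eq {α : Type*} [MeasureSpace α] (f : α → ℂ)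
    (hf : Integrable (fun x => ‖f x‖ ^ 2)) :
    ∫⁻ x, ‖f x‖ₑ ^ 2 = ENNReal.ofReal (∫ x, ‖f x‖ ^ 2) := by
  rw [ofReal_integral_eq_lintegral_ofReal hf (Filter.Eventually.of_forall fun x => by positivity)]
  exact lintegral_congr fun x => enorm_sq_eq (f x)

private theorem schwartz_sq_integrable {V : Type*} [NormedAddCommGroup V] [InnerProductSpace ℝ V]
    [FiniteDimensional ℝ V] [MeasurableSpace V] [BorelSpace V] (f : 𝓢(V, ℂ)) :
    Integrable (fun x => ‖f x‖ ^ 2) := by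
  have h := f.memLp 2 (volume : Measure V)
  exact (memLp_two_iff_integrable_sq_norm h.1).1 h

theorem pf_PLN (hTRZ : T_TRZ) : T_PLN := by
  intro m G hG
  obtain ⟨Φ, hΦ, hph⟩ := hTRZ m
  have hemb : MeasurableEmbedding Φ := Φ.toHomeomorph.measurableEmbedding
  -- the transported function
  have hgs : ContDiff ℝ (⊤ : ℕ∞) (G ∘ Φ) := hG.1.comp Φ.contDiff
  have hgc : HasCompactSupport (G ∘ Φ) := hG.2.comp_homeomorph Φ.toHomeomorph
  set g : 𝓢(EuclideanSpace ℝ (Fin (m + 2)), ℂ) := hgc.toSchwartzMap hgs with hg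
  have hgv : ∀ x, g x = G (Φ x) := fun x => rfl
  have hTF : ∀ x, TF G (Φ x) = (𝓕⁻ g) x := by
    intro x
    rw [SchwartzMap.fourierInv_coe, Real.fourierInv_eq']
    unfold TF
    rw [← hΦ.integral_comp hemb]
    refine integral_congr_ae (Filter.Eventually.of_forall fun v => ?_)
    show e (ph (Φ x) (Φ v)) * G (Φ v) = _
    rw [hph, real_inner_comm]
    rfl
  have hP : ∫ x, ‖(𝓕⁻ g) x‖ ^ 2 = ∫ x, ‖g x‖ ^ 2 := by
    have h := SchwartzMap.integral_norm_sq_fourier (𝓕⁻ g)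
    rw [FourierTransform.fourier_fourierInv_eq] at h
    exact h.symm
  have hGi : ∫ ζ, ‖G ζ‖ ^ 2 = ∫ x, ‖g x‖ ^ 2 := by
    rw [← hΦ.integral_comp hemb]
    rfl
  constructor
  · rw [← hΦ.lintegral_comp_emb hemb]
    have h1 : ∫⁻ x, ‖TF G (Φ x)‖ₑ ^ 2 = ∫⁻ x, ‖(𝓕⁻ g) x‖ₑ ^ 2 :=
      lintegral_congr fun x => by rw [hTF x]
    rw [h1, lintegral_sq_eq _ (schwartz_sq_integrable (𝓕⁻ g)), hP, hGi]
  · rw [hGi, ← hΦ.lintegral_comp_emb hemb]
    exact lintegral_sq_eq (fun x => g x) (schwartz_sq_integrable g)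

end Pool.Agent.H51.G.PLN
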